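import Mathlib
import Pool.Agent.H529.F.Asm
import Pool.Graph.R_seed8.X34.E.E4

/-!
# The certificate for `DHL[44,2]` with an arbitrary conclusion `Q` of the layered criterion (helper529)

The layered criterion of the library has several forms with the same hypotheses (`S_LAY`: tuples, with a count;
`S_LAYL`: linear forms; `S_LAYR`: linear forms without small prime factors, right order of magnitude).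
-/

set_option autoImplicit false

open Finset Filter

namespace Pool.Agent.H529.Q

open Pool.Agent.H95R2.BG Pool.Agent.Y826.Z Pool.Agent.H529.C Pool.Agent.H529.D Pool.Agent.H529.F
open Pool.Agent.H95R2.BG.Cert (pk cf pkS nrm G1 G2 look)

/-- the layered criterion with the conclusion `Q K0` -/
def S_LAYQ (Q : ℕ → Prop) : Prop := ∀ {K0 N1 M R L Dm : ℕ}, 0 < N1 → M ≤ 2 * N1 → R < 2 * N1 → Dm < L → L ≤ 2 * N1 →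
    ∀ (F : (Fin (K0 + 1) → ℕ) → ℝ), (∀ c, F c ≠ 0 → rad c ≤ R + 1) →
    ∀ (A : Finset (Fin K0 → ℕ)), A ⊆ Box K0 M → (∀ i, ∀ c ∈ Box K0 M, UU M F i c ≠ 0 → c ∈ A) →
    (∀ c ∈ A, rad c ≤ R) → ∀ ρ : (Fin K0 → ℕ) → ℕ, (∀ c ∈ A, ρ c ≤ L + Dm) →
    (∀ c ∈ A, ∀ c' ∈ A, ρ c + ρ c' ≤ 2 * L → Ev N1 c c') →
    ∀ (r : ℕ) (μ : Fin r → ℝ), (∀ l, 0 ≤ μ l) → ∀ (T : Fin r → ℕ) (W : (Fin K0 → ℕ) → ℝ),
    (∀ c ∈ A, ρ c + Dm ≤ L → W c ≤ 1) →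
    (∀ c ∈ A, L < ρ c + Dm → ρ c ≤ L →
      W c ≤ 1 - 1 / (1 + 4 / (2 + (rad c : ℝ) / N1) * ∑ l, if T l ≤ L - ρ c then μ l else 0)) →
    (∀ c ∈ A, L < ρ c → W c ≤ - (4 * (∑ l, if T l < ρ c - L then μ l else 0) / (2 - (rad c : ℝ) / N1))) →
    (4 * N1 * ∑ c ∈ Box (K0 + 1) M, F c ^ 2 < ∑ i, ∑ c ∈ A, W c * UU M F i c ^ 2) →
    Q K0

/-- compare `Pool.Agent.H529.D.S_GEN` -/
def S_GENQ (Q : ℕ → Prop) : Prop := S_BOX → S_LAYQ Q →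
  (∀ {τ s w V0 Bp : ℝ} {x G l : ℕ → ℝ} {k a m : ℕ},
    ParG τ s w V0 Bp x G l k a m → ∀ (K0 N1 : ℕ), 0 < N1 → ∀ c c' : Fin K0 → ℕ, GdG Bp x G m N1 c → GdG Bp x G m N1 c' →
    ((rad c + rad c' : ℕ) : ℝ) / N1 ≤ 2 + τ → Ev N1 c c') →
  ∀ (K NN N1 L Dm cap : ℕ) (g ph h0 h1 : ℕ → ℕ), 2 ≤ K → 0 < N1 → NN ≤ 2 * N1 → NN + K ≤ 2 * N1 → Dm < L → L ≤ 2 * N1 →
    (∀ c, cap ≤ c → g c = 0) → (cap : ℝ) ≤ 0.665 * N1 →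
  -- the levels
  ∀ (nl : ℕ) (τ s w V0 Bp : ℕ → ℝ) (x G l : ℕ → ℕ → ℝ) (k a m : ℕ → ℕ),
    (∀ i, i < nl → ParG (τ i) (s i) (w i) (V0 i) (Bp i) (x i) (G i) (l i) (k i) (a i) (m i)) →
    (∀ i, i < nl → ((NN + K : ℕ) : ℝ) / N1 ≤ Bp i + G i (m i) / 2) →
  ∀ (pen : ℕ → ℕ), (∀ i, i < nl → pen i ≤ pen (i + 1)) → (∀ i, i < nl → (2 * L : ℝ) - pen i ≤ (2 + τ i) * N1) →
    2 * L ≤ 2 * N1 + pen nl → NN + K + pen nl ≤ L + Dm + 1 →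
  -- the weights
  ∀ (r : ℕ) (μ : Fin r → ℝ) (T : Fin r → ℕ), (∀ i, 0 ≤ μ i) → ∀ (W : ℕ → ℕ → ℝ),
    (∀ i, i ≤ nl → ∀ n, n < NN → n + K + pen i + Dm ≤ L → W i n ≤ 1) →
    (∀ i, i ≤ nl → ∀ n, n < NN → L < n + K + pen i + Dm → n + K + pen i ≤ L →
      W i n ≤ 1 - 1 / (1 + 4 / (2 + ((n + K : ℕ) : ℝ) / N1) * ∑ j, if T j ≤ L - (n + K + pen i) then μ j else 0)) →
    (∀ i, i ≤ nl → ∀ n, n < NN → L < n + K + pen i →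
      W i n ≤ - (4 * (∑ j, if T j < n + K + pen i - L then μ j else 0) / (2 - ((n + K : ℕ) : ℝ) / N1))) →
  -- the events
  ∀ (ne : ℕ) (Xe nfe : Fin ne → ℕ) (De : Fin ne → ℕ → ℝ) (qe : Fin ne → ℕ → ℕ) (Λ : Fin ne → ℝ),
    (∀ e n, 0 ≤ De e n) → (∀ e, 0 ≤ Λ e) →
    (∀ i, i < nl → ∀ j, j ≤ m i → ∃ S : Finset (Fin ne),
      (∀ e ∈ S, (Xe e : ℝ) ≤ x i j * N1 ∧ G i j / 2 * N1 ≤ nfe e + 1) ∧
      ∀ n, n < NN → W 0 n - W (i + 1) n ≤ ∑ e ∈ S, De e n) →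
    (∀ e, ∀ c : Fin K → ℕ, Evt (Xe e) (nfe e) c → (∏ j, (g (c j) : ℝ)) ^ 2 ≤ Λ e * ∏ j, (qe e (c j) : ℝ)) →
    (4 * (N1 : ℝ) * ∑ n ∈ range NN, ((h0 n : ℝ) ^ 2 * (cf (Ps (fun i => g i * g i) ^ (K + 1)) n : ℝ) +
      (h1 n : ℝ) ^ 2 * (cf (G2 (K + 1) (Ps (fun i => g i * g i)) (Ps1 ph (fun i => g i * g i)) (Ps2 ph (fun i => g i * g i))) n : ℝ) -
      2 * ((h0 n : ℝ) * h1 n) * (cf (G1 (K + 1) (Ps (fun i => g i * g i)) (Ps1 ph (fun i => g i * g i))) n : ℝ)) <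
      (K + 1) * (∑ n ∈ range NN, W 0 n * XQ NN g ph h0 h1 K (fun i => g i * g i) n -
        ∑ e, Λ e * ∑ n ∈ range NN, De e n * XQ NN g ph h0 h1 K (qe e) n)) →
    Q K

/-- compare `Pool.Agent.H529.F.S_ASM` -/
def S_ASMQ (Q : ℕ → Prop) : Prop := S_GENQ Q → S_LAYQ Q → Pool.Agent.H529.F.S_COMB → S_BOX → S_W → S_T → S_LV → S_COV → S_X1 → S_X2 →
  ∀ (D N1 L bs BI GB TM wm Mm wnm cap Bo Bb Gm Hm Pm A0 A1 A2 MA Ym Zm dd n0 v fuel : ℕ) (g ph h0 h1 : ℕ → ℕ)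
    (levels : List Lvl) (pbl : List ℕ) (E : List Ed),
    0 < N1 → 2 ^ D + 43 ≤ 2 * N1 → GB * bs < L → L ≤ 2 * N1 → 0 < bs → L + 1 = 43 + (BI + 1) * bs →
    (∀ c, cap ≤ c → g c = 0) → 1000 * cap ≤ 665 * N1 →
  -- levels
    (∀ d ∈ levels, d.ok = true ∧ 20000000 * ((2 ^ D + 43 : ℕ) : ℤ) ≤ (2 * d.Bp + d.GG d.m) * N1) →
    (∀ i, i < levels.length → pbl.getD i 0 ≤ pbl.getD (i + 1) 0) → pbl.getD 0 0 = 0 →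
    (∀ i, i < levels.length → 20000000 * (L : ℤ) ≤ (20000000 + (levels.getD i default).τ) * N1 + 10000000 * (bs * (pbl.getD i 0) : ℕ)) →
    2 * L ≤ 2 * N1 + bs * pbl.getD levels.length 0 → 2 ^ D + 43 + bs * pbl.getD levels.length 0 ≤ L + GB * bs + 1 →
  -- multipliers
    (∀ k, k + 1 < GB → look TM wm k ≤ look TM wm (k + 1)) → (∀ k, k < GB → look TM wm k ≤ Mm) →
    4194304 * (N1 * Mm) / (1024 * (2 * N1 + 1 - 2 ^ D - 43)) + 1 ≤ wnm →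
  -- events
    (∀ i, i < levels.length → ∀ j, j ≤ (levels.getD i default).m →
      reach E N1 i ((levels.getD i default).X j) ((levels.getD i default).GG j) fuel 0 = true) →
    (∀ e ∈ E, e.l1 ≤ e.l2 ∧ e.l2 ≤ levels.length) →
    (∀ e ∈ E, 0 < e.nn ∧ e.nn ≤ dd ∧
      (∀ i, i < 64 → 4194304 * e.nn ^ (i + 1) ≤ look e.A 24 i * dd ^ (i + 1)) ∧
      (∀ j, 64 * j < e.X → 4194304 * e.nn ^ (64 * j) ≤ look e.B 24 j * dd ^ (64 * j)) ∧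
      (∀ i, i < 64 → look e.A 24 i ≤ 4194304) ∧ (∀ j, 64 * j < e.X → look e.B 24 j ≤ 4194304)) →
  -- sizes
    nrm (2 ^ D) (Ps (fun c => g c * g c + 1)) ≤ A0 → nrm (2 ^ D) (Ps1 ph (fun c => g c * g c + 1)) ≤ A1 →
    nrm (2 ^ D) (Ps2 ph (fun c => g c * g c + 1)) ≤ A2 → 1 ≤ A0 → 1 ≤ MA → A1 ^ 2 < 2 ^ Bo →
    (A0 ^ 44 + 44 * (A1 * A0 ^ 43) + 44 * (A2 * A0 ^ 43) + 1892 * (A1 ^ 2 * A0 ^ 42)) * (2 ^ D * MA) < 2 ^ Bo →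
    (1048576 + wnm) * (Ym * Ym) ≤ MA → (1048576 + wnm) * (2 * (Ym * Zm)) ≤ MA → (1048576 + wnm) * (Zm * Zm) ≤ MA →
    2 * (Hm * Hm) ≤ MA →
    (∀ n, n < 2 ^ D → g n ≤ Gm ∧ ph n ≤ Pm ∧ h0 n ≤ Hm ∧ h1 n ≤ Hm) → 1 ≤ Pm → 2 ^ D * (Gm * Pm) * Hm < 2 ^ Bb →
    genr 0 Bb (fun _ a b => cond (Nat.ble b a) 0 1) D 0 (AP Bb D g h0 (2 ^ D) (Bb * (2 ^ D - 1)))
      (AM Bb D g ph h1 (2 ^ D) (Bb * (2 ^ D - 1))) = 0 →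
    genr 0 Bb (fun _ a b => cond (Nat.ble a Ym) (cond (Nat.ble b Zm) 0 1) 1) D 0 (YY Bb D g ph h0 h1 (2 ^ D) (Bb * (2 ^ D - 1)))
      (BB Bb D g h1 (2 ^ D) (Bb * (2 ^ D - 1))) = 0 →
  -- the kernel computations
    LM Bo Bb (Bo * 2 ^ D) (Bo * (2 ^ D - 1)) D ph (fun i => Nat.mul (g i) (g i)) (wpos TM wm bs BI GB N1 43 0)
        (YY Bb D g ph h0 h1 (2 ^ D) (Bb * (2 ^ D - 1))) (BB Bb D g h1 (2 ^ D) (Bb * (2 ^ D - 1))) +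
      LP Bo Bb (Bo * 2 ^ D) (Bo * (2 ^ D - 1)) D ph (fun i => Nat.mul (g i) (g i)) (wneg TM wm bs BI N1 43 0)
        (YY Bb D g ph h0 h1 (2 ^ D) (Bb * (2 ^ D - 1))) (BB Bb D g h1 (2 ^ D) (Bb * (2 ^ D - 1))) + v ≤
      LP Bo Bb (Bo * 2 ^ D) (Bo * (2 ^ D - 1)) D ph (fun i => Nat.mul (g i) (g i)) (wpos TM wm bs BI GB N1 43 0)
        (YY Bb D g ph h0 h1 (2 ^ D) (Bb * (2 ^ D - 1))) (BB Bb D g h1 (2 ^ D) (Bb * (2 ^ D - 1))) +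
      LM Bo Bb (Bo * 2 ^ D) (Bo * (2 ^ D - 1)) D ph (fun i => Nat.mul (g i) (g i)) (wneg TM wm bs BI N1 43 0)
        (YY Bb D g ph h0 h1 (2 ^ D) (Bb * (2 ^ D - 1))) (BB Bb D g h1 (2 ^ D) (Bb * (2 ^ D - 1))) →
    NP Bo (Bo * 2 ^ D) D ph (fun i => Nat.mul (g i) (g i)) h0 h1 (Bo * (2 ^ D - 1)) ≤
      NM Bo (Bo * 2 ^ D) D ph (fun i => Nat.mul (g i) (g i)) h0 h1 (Bo * (2 ^ D - 1)) + n0 →
    (∀ e ∈ E, LP Bo Bb (Bo * 2 ^ D) (Bo * (2 ^ D - 1)) D ph (vwq g e.A e.B e.X)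
        (wdif TM wm bs BI GB N1 43 (pbl.getD e.l1 0) (pbl.getD e.l2 0))
        (YY Bb D g ph h0 h1 (2 ^ D) (Bb * (2 ^ D - 1))) (BB Bb D g h1 (2 ^ D) (Bb * (2 ^ D - 1))) ≤
      LM Bo Bb (Bo * 2 ^ D) (Bo * (2 ^ D - 1)) D ph (vwq g e.A e.B e.X)
        (wdif TM wm bs BI GB N1 43 (pbl.getD e.l1 0) (pbl.getD e.l2 0))
        (YY Bb D g ph h0 h1 (2 ^ D) (Bb * (2 ^ D - 1))) (BB Bb D g h1 (2 ^ D) (Bb * (2 ^ D - 1))) + e.c) →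
    (∀ e ∈ E, e.c * dd ^ e.nf ≤ e.C * e.nn ^ e.nf) →
    4 * N1 * (1048576 * n0) + 44 * (E.map Ed.C).sum < 44 * v →
    Q 43

/-- conclusion of `Pool.Agent.Y826.Z.S_LAY` -/
def QN (K0 : ℕ) : Prop := ∀ (h : Fin (K0 + 1) → ℕ), Admissible h → ∀ (Q b : ℕ), Squarefree Q → (∀ i, (b + h i).Coprime Q) →
    ∀ ε : ℝ, 0 < ε → ∀ᶠ X : ℝ in atTop, X ^ (1 - ε) ≤ ((goodN h Q b X).card : ℝ)

/-- conclusion of `Pool.Agent.Y826.ZG.S_LAYL` -/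
def QL (K0 : ℕ) : Prop := ∀ (A B : Fin (K0 + 1) → ℕ), LF.AdmissibleL A B →
    ∀ ε : ℝ, 0 < ε → ∀ᶠ X : ℝ in atTop, X ^ (1 - ε) ≤ ((LF.goodL A B X).card : ℝ)

/-- conclusion of `Pool.Agent.X34.E.S_LAYR` -/
def QR (K0 : ℕ) : Prop := ∃ k : ℝ, 0 < k ∧ ∀ (A B : Fin (K0 + 1) → ℕ), LF.AdmissibleL A B →
    ∃ c : ℝ, 0 < c ∧ ∀ᶠ X : ℝ in atTop, c * X / Real.log X ^ (K0 + 1) ≤ ((Pool.Agent.X34.E.goodR k A B X).card : ℝ)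

/-- `DHL[44,2]` for linear forms, with a count -/
def Dhl44L : Prop := ∀ (A B : Fin 44 → ℕ), LF.AdmissibleL A B → ∀ ε : ℝ, 0 < ε →
  ∀ᶠ X : ℝ in atTop, X ^ (1 - ε) ≤ ((LF.goodL A B X).card : ℝ)

/-- `DHL[44,2]` for linear forms without small prime factors, right order of magnitude -/
def Dhl44R : Prop := ∃ k : ℝ, 0 < k ∧ ∀ (A B : Fin 44 → ℕ), LF.AdmissibleL A B →
  ∃ c : ℝ, 0 < c ∧ ∀ᶠ X : ℝ in atTop, c * X / Real.log X ^ 44 ≤ ((Pool.Agent.X34.E.goodR k A B X).card : ℝ)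

end Pool.Agent.H529.Q
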