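import Pool.Agent.H529.Q.QDefs
import Pool.Agent.H529.D.Gen

set_option autoImplicit false

open Finset Filter

namespace Pool.Agent.H529.Q

open Pool.Agent.H95R2.BG Pool.Agent.Y826.Z Pool.Agent.H529.C Pool.Agent.H529.D Pool.Agent.H529.D.Gen
open Pool.Agent.H95R2.BG.Cert (pk cf pkS nrm G1 G2)

/-- compare `Pool.Agent.H529.D.Gen.gen_crit` -/
theorem gen_critQ (Q : ℕ → Prop) : S_GENQ Q := by
  intro hB hL hcomb K NN N1 L Dm cap g ph h0 h1 hK hN1 hM hNK hDm hL2 hg hcap nl τ s w V0 Bp x G l k a m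
    hpar hrd pen hp1 hp2 hp3 hp4 r μ T hμ W hW1 hW2 hW3 ne Xe nfe De qe Λ hDe hΛ hcov hE hfin
  have hN1' : (0 : ℝ) < N1 := by exact_mod_cast hN1
  choose cls hc1 hc2 hc3 using fun c : Fin K → ℕ =>
    exists_cls nl (fun b => GdG (Bp b) (x b) (G b) (m b) N1 c)
  obtain ⟨hb1, hb2, hb3, hb4, hb5⟩ := hB K NN g ph h0 h1 hK
  have hrad : ∀ c ∈ AG K NN cap, rad c ≤ NN + K - 1 := by
    intro c hc
    have := ((mem_AG c).1 hc).2.1
    rw [rad_eq]
    omega
  have hsum : ∀ c : Fin K → ℕ, ∀ c' : Fin K → ℕ, c = c' → rad c = rad c' := fun c c' h => by rw [h]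
  refine @hL K N1 NN (NN + K - 1) L Dm hN1 hM (by omega) hDm hL2 (FF NN g ph h0 h1)
    (fun c hc => by have := hb1 c hc; omega) (AG K NN cap) (AG_sub K NN cap) ?_ hrad
    (fun c => rad c + pen (cls c)) ?_ ?_ r μ hμ T (fun c => W (cls c) (∑ j, c j)) ?_ ?_ ?_ ?_
  · intro i c hc hU
    obtain ⟨h2, h3⟩ := hb3 i c hU
    refine (mem_AG c).2 ⟨hc, h2, fun j => ?_⟩
    by_contra hj
    exact h3 j (hg _ (not_lt.1 hj))
  · intro c hc
    have h2 := hrad c hc
    have h3 := pen_mono hp1 (cls c) (hc1 c)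
    show rad c + pen (cls c) ≤ L + Dm
    omega
  · intro c _ c' _ h
    exact ev_of (fun i hi => hcomb (hpar i hi) K N1 hN1) hN1 hp2 hp3 cls hc1 hc2 c c' h
  · intro c hc h
    have h2 := ((mem_AG c).1 hc).2.1
    have h' : rad c + pen (cls c) + Dm ≤ L := h
    rw [rad_eq] at h'
    exact hW1 (cls c) (hc1 c) _ h2 h'
  · intro c hc h h'
    have h2 := ((mem_AG c).1 hc).2.1
    have h3 : L < rad c + pen (cls c) + Dm := h
    have h4 : rad c + pen (cls c) ≤ L := h'
    have h5 := hW2 (cls c) (hc1 c) (∑ j, c j) h2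
    rw [← rad_eq] at h5
    exact h5 h3 h4
  · intro c hc h
    have h2 := ((mem_AG c).1 hc).2.1
    have h3 : L < rad c + pen (cls c) := h
    have h5 := hW3 (cls c) (hc1 c) (∑ j, c j) h2
    rw [← rad_eq] at h5
    exact h5 h3
  · have hm : ∀ i : Fin (K + 1), ∑ n ∈ range NN, W 0 n * XQ NN g ph h0 h1 K (fun i => g i * g i) n -
        ∑ e, Λ e * ∑ n ∈ range NN, De e n * XQ NN g ph h0 h1 K (qe e) n ≤
        ∑ c ∈ AG K NN cap, W (cls c) (∑ j, c j) * UU NN (FF NN g ph h0 h1) i c ^ 2 := by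
      intro i
      refine one_marginal hB hK hg (W 0) (fun c => W (cls c) (∑ j, c j)) ne Xe nfe De qe Λ hDe hΛ hE ?_ i
      intro c hc
      obtain ⟨-, hcs, hcc⟩ := (mem_AG c).1 hc
      rcases hc3 c with h | ⟨i', h, hnot⟩
      · refine ⟨∅, fun e he => absurd he (notMem_empty e), ?_⟩
        rw [h, sub_self, sum_empty]
      · have hi' : i' < nl := by have := hc1 c; omega
        have hex : ∃ j, j ≤ m i' ∧ ¬ G i' j / 2 ≤ Sm N1 (x i' j) c := by
          by_contra hno
          push Not at hno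
          apply hnot
          refine ⟨?_, ?_, hno⟩
          · intro j
            have h2 : c j + 1 ≤ cap := hcc j
            have h3 : (c j : ℝ) + 1 ≤ cap := by exact_mod_cast h2
            rw [div_le_iff₀ hN1']
            linarith
          · refine le_trans ?_ (hrd i' hi')
            have h2 : rad c ≤ NN + K := by have := hrad c hc; omega
            have h3 : (rad c : ℝ) ≤ ((NN + K : ℕ) : ℝ) := by exact_mod_cast h2
            exact div_le_div_of_nonneg_right h3 hN1'.le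
        obtain ⟨j, hj, hj2⟩ := hex
        obtain ⟨S, hS1, hS2⟩ := hcov i' hi' j hj
        refine ⟨S, fun e he => evt_of hN1 (hS1 e he).1 (hS1 e he).2 hj2, ?_⟩
        rw [h]
        exact hS2 _ hcs
    have hsumm := sum_le_sum (s := univ) fun i (_ : i ∈ univ) => hm i
    rw [sum_const, card_univ, Fintype.card_fin, nsmul_eq_mul] at hsumm
    rw [hb2]
    refine lt_of_lt_of_le hfin ?_
    push_cast at hsumm
    exact hsumm

end Pool.Agent.H529.Q
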